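import Mathlib

set_option autoImplicit false

open MulOpposite Cardinal

namespace Pool.Agent.Results.MP_9f28a9_al.NoGenericPoint

/-- A pp formula in one free variable `v` over `R`, for right modules:
`∃ w_1 … w_m, ⋀_j v a_j + ∑_i w_i b_{ij} = 0`. -/
structure PPFormula (R : Type) where
  m : ℕ
  k : ℕ
  a : Fin k → R
  b : Fin m → Fin k → R

/-- The solution set of a pp formula in a right `R`-module. -/
def PPFormula.sol {R : Type} [Ring R] (φ : PPFormula R) (M : Type) [AddCommGroup M]
    [Module Rᵐᵒᵖ M] : Set M :=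
  {v | ∃ w : Fin φ.m → M, ∀ j, op (φ.a j) • v + ∑ i, op (φ.b i j) • w i = 0}

/-- A pp-pair `φ/ψ`: two pp formulas with `ψ ≤ φ`, that is `ψ(M) ⊆ φ(M)` for every right
`R`-module `M`. -/
structure PPPair (R : Type) [Ring R] where
  φ : PPFormula R
  ψ : PPFormula R
  le : ∀ (M : Type) [AddCommGroup M] [Module Rᵐᵒᵖ M], ψ.sol M ⊆ φ.sol M

/-- A pure embedding of right `R`-modules: an injective linear map such that every finite system of
linear equations with constants from `A` that has a solution in `B` has a solution in `A`. -/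
def IsPureEmbedding {R : Type} [Ring R] {A B : Type} [AddCommGroup A] [Module Rᵐᵒᵖ A]
    [AddCommGroup B] [Module Rᵐᵒᵖ B] (f : A →ₗ[Rᵐᵒᵖ] B) : Prop :=
  Function.Injective f ∧
    ∀ (m k : ℕ) (b : Fin m → Fin k → R) (c : Fin k → A),
      (∃ w : Fin m → B, ∀ j, ∑ i, op (b i j) • w i = f (c j)) →
        ∃ w : Fin m → A, ∀ j, ∑ i, op (b i j) • w i = c j

/-- A right `R`-module is pure-injective if every homomorphism into it extends along every pure
embedding. -/
def IsPureInjective (R : Type) [Ring R] (M : Type) [AddCommGroup M] [Module Rᵐᵒᵖ M] : Prop :=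
  ∀ (A B : Type) [AddCommGroup A] [Module Rᵐᵒᵖ A] [AddCommGroup B] [Module Rᵐᵒᵖ B]
    (f : A →ₗ[Rᵐᵒᵖ] B), IsPureEmbedding f → ∀ g : A →ₗ[Rᵐᵒᵖ] M,
      ∃ h : B →ₗ[Rᵐᵒᵖ] M, ∀ x, h (f x) = g x

/-- A right `R`-module is indecomposable if it is nonzero and is not the direct sum of two nonzero
submodules. -/
def IsIndecomposable (R : Type) [Ring R] (M : Type) [AddCommGroup M] [Module Rᵐᵒᵖ M] : Prop :=
  Nontrivial M ∧ ∀ A B : Submodule Rᵐᵒᵖ M, IsCompl A B → A = ⊥ ∨ B = ⊥

/-- An indecomposable pure-injective right `R`-module. -/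
structure IndecPureInj (R : Type) [Ring R] where
  carrier : Type
  [grp : AddCommGroup carrier]
  [mod : Module Rᵐᵒᵖ carrier]
  pinj : IsPureInjective R carrier
  indec : IsIndecomposable R carrier

attribute [instance] IndecPureInj.grp IndecPureInj.mod

/-- Isomorphism of indecomposable pure-injective modules. -/
def isoSetoid (R : Type) [Ring R] : Setoid (IndecPureInj R) where
  r N N' := Nonempty (N.carrier ≃ₗ[Rᵐᵒᵖ] N'.carrier)
  iseqv :=
    ⟨fun _ => ⟨LinearEquiv.refl _ _⟩, fun ⟨e⟩ => ⟨e.symm⟩, fun ⟨e⟩ ⟨e'⟩ => ⟨e.trans e'⟩⟩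

/-- The set of isomorphism classes of indecomposable pure-injective right `R`-modules. -/
def Zg (R : Type) [Ring R] : Type 1 := Quotient (isoSetoid R)

/-- The isomorphism class of an indecomposable pure-injective module. -/
def cls {R : Type} [Ring R] (N : IndecPureInj R) : Zg R := Quotient.mk (isoSetoid R) N

/-- The set `(φ/ψ)` of the classes of the modules `N` with `ψ(N)` strictly contained in `φ(N)`. -/
def PPPair.basic {R : Type} [Ring R] (P : PPPair R) : Set (Zg R) :=
  {x | ∃ N : IndecPureInj R, x = cls N ∧ P.ψ.sol N.carrier ⊂ P.φ.sol N.carrier}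

/-- The rep-Zariski topology: the topology generated by the complements `[φ/ψ]` of the sets
`(φ/ψ)`. -/
@[reducible] def zariski (R : Type) [Ring R] : TopologicalSpace (Zg R) :=
  TopologicalSpace.generateFrom {U | ∃ P : PPPair R, U = (P.basic)ᶜ}

theorem sol_iso {R : Type} [Ring R] (φ : PPFormula R) {M N : Type} [AddCommGroup M]
    [Module Rᵐᵒᵖ M] [AddCommGroup N] [Module Rᵐᵒᵖ N] (e : M ≃ₗ[Rᵐᵒᵖ] N) (v : M) :
    v ∈ φ.sol M ↔ e v ∈ φ.sol N := by
  constructor
  · rintro ⟨w, hw⟩
    refine ⟨fun i => e (w i), fun j => ?_⟩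
    have := congrArg e (hw j)
    simpa [map_sum] using this
  · rintro ⟨w, hw⟩
    refine ⟨fun i => e.symm (w i), fun j => ?_⟩
    have := congrArg e.symm (hw j)
    simpa [map_sum] using this

theorem ssubset_iso {R : Type} [Ring R] (P : PPPair R) {M N : Type} [AddCommGroup M]
    [Module Rᵐᵒᵖ M] [AddCommGroup N] [Module Rᵐᵒᵖ N] (e : M ≃ₗ[Rᵐᵒᵖ] N)
    (h : P.ψ.sol M ⊂ P.φ.sol M) : P.ψ.sol N ⊂ P.φ.sol N := by
  refine ⟨P.le N, fun h' => h.2 fun v hv => ?_⟩
  rw [sol_iso _ e] at hv ⊢
  exact h' hv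

theorem exists_cls {R : Type} [Ring R] (x : Zg R) : ∃ N : IndecPureInj R, cls N = x :=
  Quotient.exists_rep x

theorem mem_basic {R : Type} [Ring R] (P : PPPair R) (N : IndecPureInj R) :
    cls N ∈ P.basic ↔ P.ψ.sol N.carrier ⊂ P.φ.sol N.carrier := by
  constructor
  · rintro ⟨N', h, h'⟩
    have : Nonempty (N.carrier ≃ₗ[Rᵐᵒᵖ] N'.carrier) := Quotient.exact h
    obtain ⟨e⟩ := this
    exact ssubset_iso P e.symm h'
  · intro h
    exact ⟨N, rfl, h⟩

/-! ### pp formulas over von Neumann regular rings -/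

section VNR

variable {R : Type} [Ring R]

/-- A finitely generated right ideal of a von Neumann regular ring is generated by an idempotent
that fixes it. -/
theorem exists_left_unit (hR : ∀ a : R, ∃ x : R, a * x * a = a) (k : ℕ) (β : Fin k → R) :
    ∃ γ : Fin k → R, ∀ j, (∑ i, β i * γ i) * β j = β j := by
  induction k with
  | zero => exact ⟨fun _ => 0, fun j => j.elim0⟩
  | succ k ih =>
    obtain ⟨γ, hγ⟩ := ih (fun i => β i.castSucc)
    set e := ∑ i : Fin k, β i.castSucc * γ i with he
    set b := β (Fin.last k) with hb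
    obtain ⟨x, hx⟩ := hR ((1 - e) * b)
    -- e' = e + (1-e) b x (1-e) = e + b x (1-e) - e b x (1-e)
    refine ⟨Fin.snoc (fun i => γ i - γ i * (b * x * (1 - e))) (x * (1 - e)), ?_⟩
    have hsum : (∑ i, β i * (Fin.snoc (fun i => γ i - γ i * (b * x * (1 - e))) (x * (1 - e)) :
        Fin (k + 1) → R) i) = e + (1 - e) * b * x * (1 - e) := by
      rw [Fin.sum_univ_castSucc]
      simp only [Fin.snoc_castSucc, Fin.snoc_last]
      have : ∑ i : Fin k, β i.castSucc * (γ i - γ i * (b * x * (1 - e))) =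
          e - e * (b * x * (1 - e)) := by
        rw [he, Finset.sum_mul, ← Finset.sum_sub_distrib]
        refine Finset.sum_congr rfl fun i _ => ?_
        simp only [mul_sub, mul_assoc]
      rw [this, ← hb]
      noncomm_ring
    rw [hsum]
    have hee : e * e = e := by
      conv_lhs => rw [he]
      rw [Finset.mul_sum]
      conv_rhs => rw [he]
      refine Finset.sum_congr rfl fun i _ => ?_
      rw [← mul_assoc, ← he, hγ i]
    intro j
    refine Fin.lastCases ?_ (fun j => ?_) j
    · rw [← hb]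
      have h1 : (e + (1 - e) * b * x * (1 - e)) * b = e * b + (1 - e) * b * x * ((1 - e) * b) := by
        noncomm_ring
      rw [h1, hx]
      noncomm_ring
    · have h1 : (e + (1 - e) * b * x * (1 - e)) * β j.castSucc =
          e * β j.castSucc + (1 - e) * b * x * (β j.castSucc - e * β j.castSucc) := by
        noncomm_ring
      rw [h1, hγ j, sub_self, mul_zero, add_zero]

/-- Elimination of the bound variables of a pp formula over a von Neumann regular ring. -/
theorem elim (hR : ∀ a : R, ∃ x : R, a * x * a = a) (m k : ℕ) (a : Fin k → R)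
    (b : Fin m → Fin k → R) :
    ∃ a' : Fin k → R, ∀ (M : Type) [AddCommGroup M] [Module Rᵐᵒᵖ M] (v : M),
      (∃ w : Fin m → M, ∀ j, op (a j) • v + ∑ i, op (b i j) • w i = 0) ↔
        ∀ j, op (a' j) • v = 0 := by
  induction m generalizing a with
  | zero =>
    refine ⟨a, fun M _ _ v => ⟨?_, ?_⟩⟩
    · rintro ⟨w, hw⟩ j
      simpa using hw j
    · intro h
      exact ⟨fun i => i.elim0, fun j => by simpa using h j⟩
  | succ m ih =>
    obtain ⟨γ, hγ⟩ := exists_left_unit hR k (fun j => b (Fin.last m) j)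
    obtain ⟨a', ha'⟩ := ih (fun j => a j - (∑ i, a i * γ i) * b (Fin.last m) j)
      (fun l j => b l.castSucc j - (∑ i, b l.castSucc i * γ i) * b (Fin.last m) j)
    refine ⟨a', fun M _ _ v => ?_⟩
    rw [← ha']
    -- key computation
    have key : ∀ (w : Fin m → M) (j : Fin k),
        op (a j - (∑ i, a i * γ i) * b (Fin.last m) j) • v +
          ∑ l, op (b l.castSucc j - (∑ i, b l.castSucc i * γ i) * b (Fin.last m) j) • w l =
        (op (a j) • v + ∑ l, op (b l.castSucc j) • w l) -
          op (b (Fin.last m) j) • ∑ i, op (γ i) •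
            (op (a i) • v + ∑ l, op (b l.castSucc i) • w l) := by
      intro w j
      simp only [op_sub, sub_smul, Finset.sum_sub_distrib, smul_add, Finset.sum_add_distrib]
      have e1 : op ((∑ i, a i * γ i) * b (Fin.last m) j) • v =
          op (b (Fin.last m) j) • ∑ i, op (γ i) • op (a i) • v := by
        rw [op_mul, mul_smul, Finset.op_sum, Finset.sum_smul]
        simp only [op_mul, mul_smul]
      have e2 : ∑ l, op ((∑ i, b l.castSucc i * γ i) * b (Fin.last m) j) • w l =
          op (b (Fin.last m) j) • ∑ i, op (γ i) • ∑ l, op (b l.castSucc i) • w l := by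
        simp only [op_mul, mul_smul, Finset.op_sum, Finset.sum_smul, Finset.smul_sum]
        rw [Finset.sum_comm]
      rw [e1, e2]
      abel
    constructor
    · rintro ⟨w, hw⟩
      refine ⟨fun l => w l.castSucc, fun j => ?_⟩
      rw [key]
      have h1 : ∀ i, op (a i) • v + ∑ l : Fin m, op (b l.castSucc i) • w l.castSucc =
          - (op (b (Fin.last m) i) • w (Fin.last m)) := by
        intro i
        have := hw i
        rw [Fin.sum_univ_castSucc, ← add_assoc] at this
        exact eq_neg_of_add_eq_zero_left this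
      simp only [h1]
      have h2 : op (b (Fin.last m) j) • ∑ i, op (γ i) • (-(op (b (Fin.last m) i) •
          w (Fin.last m))) = - (op ((∑ i, b (Fin.last m) i * γ i) * b (Fin.last m) j) •
            w (Fin.last m)) := by
        simp only [op_mul, mul_smul, Finset.op_sum, Finset.sum_smul, smul_neg, Finset.sum_neg_distrib]
      rw [h2, hγ j]
      simp
    · rintro ⟨w, hw⟩
      refine ⟨Fin.snoc w (-(∑ i, op (γ i) • (op (a i) • v + ∑ l, op (b l.castSucc i) • w l))),
        fun j => ?_⟩
      rw [Fin.sum_univ_castSucc]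
      simp only [Fin.snoc_castSucc, Fin.snoc_last]
      have := hw j
      rw [key] at this
      rw [← add_assoc, smul_neg, ← sub_eq_add_neg]
      exact this

/-- Over a von Neumann regular ring a pp formula is of the form `v e = 0` with `e` idempotent. -/
theorem sol_eq (hR : ∀ a : R, ∃ x : R, a * x * a = a) (φ : PPFormula R) :
    ∃ e : R, e * e = e ∧ ∀ (M : Type) [AddCommGroup M] [Module Rᵐᵒᵖ M] (v : M),
      v ∈ φ.sol M ↔ op e • v = 0 := by
  obtain ⟨a', ha'⟩ := elim hR φ.m φ.k φ.a φ.b
  obtain ⟨γ, hγ⟩ := exists_left_unit hR φ.k a'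
  refine ⟨∑ i, a' i * γ i, ?_, fun M _ _ v => ?_⟩
  · conv_lhs => rw [Finset.mul_sum]
    refine Finset.sum_congr rfl fun i _ => ?_
    rw [← mul_assoc, hγ i]
  · refine (ha' M v).trans ⟨fun h => ?_, fun h j => ?_⟩
    · simp only [Finset.op_sum, Finset.sum_smul, op_mul, mul_smul, h, smul_zero, Finset.sum_const_zero]
    · rw [← hγ j, op_mul, mul_smul, h, smul_zero]

/-- Over a von Neumann regular ring the set `(φ/ψ)` is `{N | N r ≠ 0}` for some `r`. -/
theorem pair_eq (hR : ∀ a : R, ∃ x : R, a * x * a = a) (P : PPPair R) :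
    ∃ r : R, ∀ (M : Type) [AddCommGroup M] [Module Rᵐᵒᵖ M],
      P.ψ.sol M ⊂ P.φ.sol M ↔ ∃ v : M, op r • v ≠ 0 := by
  obtain ⟨e, he, hφ⟩ := sol_eq hR P.φ
  obtain ⟨f, hf, hψ⟩ := sol_eq hR P.ψ
  refine ⟨(1 - e) * f, fun M _ _ => ⟨fun h => ?_, ?_⟩⟩
  · obtain ⟨v, hv, hv'⟩ := Set.exists_of_ssubset h
    rw [hφ] at hv
    rw [hψ] at hv'
    refine ⟨v, ?_⟩
    rw [op_mul, mul_smul, op_sub, sub_smul, hv, sub_zero, op_one, one_smul]
    exact hv'
  · rintro ⟨v, hv⟩
    refine ⟨P.le M, fun h => hv ?_⟩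
    have h1 : op (1 - e) • v ∈ P.φ.sol M := by
      rw [hφ, ← mul_smul, ← op_mul, sub_mul, one_mul, he, sub_self, op_zero, zero_smul]
    have := h h1
    rw [hψ] at this
    rw [op_mul, mul_smul]
    exact this

end VNR

/-- The pair `(∃ w, v = w r) / (v = 0)`, whose set is `{N | N r ≠ 0}`. -/
def divPair {R : Type} [Ring R] (r : R) : PPPair R where
  φ := ⟨1, 1, fun _ => 1, fun _ _ => -r⟩
  ψ := ⟨0, 1, fun _ => 1, fun _ _ => 0⟩
  le := by
    rintro M _ _ v ⟨w, hw⟩
    have hv : v = 0 := by simpa using hw 0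
    exact ⟨fun _ => 0, fun j => by simp [hv]⟩

theorem divPair_iff {R : Type} [Ring R] (r : R) (M : Type) [AddCommGroup M] [Module Rᵐᵒᵖ M] :
    (divPair r).ψ.sol M ⊂ (divPair r).φ.sol M ↔ ∃ v : M, op r • v ≠ 0 := by
  have hψ : ∀ v : M, v ∈ (divPair r).ψ.sol M ↔ v = 0 := by
    intro v
    constructor
    · rintro ⟨w, hw⟩
      simpa [divPair] using hw (0 : Fin 1)
    · rintro rfl
      exact ⟨fun _ => 0, fun j => by simp⟩
  have hφ : ∀ v : M, v ∈ (divPair r).φ.sol M ↔ ∃ w : M, v = op r • w := by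
    intro v
    constructor
    · rintro ⟨w, hw⟩
      refine ⟨w (0 : Fin 1), ?_⟩
      have h1 : op (1 : R) • v + ∑ i : Fin 1, op (-r) • w i = 0 := hw (0 : Fin 1)
      rw [Fin.sum_univ_one, op_one, one_smul, op_neg, neg_smul, ← sub_eq_add_neg,
        sub_eq_zero] at h1
      exact h1
    · rintro ⟨w, rfl⟩
      refine ⟨fun _ => w, fun j => ?_⟩
      change op (1 : R) • op r • w + ∑ i : Fin 1, op (-r) • w = 0
      simp
  constructor
  · intro h
    obtain ⟨v, hv, hv'⟩ := Set.exists_of_ssubset h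
    rw [hφ] at hv
    rw [hψ] at hv'
    obtain ⟨w, rfl⟩ := hv
    exact ⟨w, hv'⟩
  · rintro ⟨w, hw⟩
    refine ⟨(divPair r).le M, fun h => hw ?_⟩
    rw [← hψ]
    exact h ((hφ _).2 ⟨w, rfl⟩)

/-- Every module embeds in an injective one. -/
theorem exists_injective (S : Type) [Ring S] (T : Type) [AddCommGroup T] [Module S T] :
    ∃ (Q : Type) (_ : AddCommGroup Q) (_ : Module S Q) (_ : Module.Injective S Q)
      (j : T →ₗ[S] Q), Function.Injective j := by
  have : CategoryTheory.EnoughInjectives (ModuleCat.{0} S) := ModuleCat.enoughInjectives.{0} S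
  let J := CategoryTheory.Injective.under (ModuleCat.of S T)
  let ι := CategoryTheory.Injective.ι (ModuleCat.of S T)
  have hJ : CategoryTheory.Injective (ModuleCat.of S J) :=
    inferInstanceAs (CategoryTheory.Injective J)
  exact ⟨J, inferInstance, inferInstance, Module.injective_module_of_injective_object S J,
    ι.hom, (ModuleCat.mono_iff_injective ι).1 inferInstance⟩

/-- Injective hull of a simple module. -/
theorem exists_hull (S : Type) [Ring S] (T : Type) [AddCommGroup T] [Module S T]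
    [IsSimpleModule S T] :
    ∃ (E : Type) (_ : AddCommGroup E) (_ : Module S E) (_ : Module.Injective S E)
      (j : T →ₗ[S] E), Function.Injective j ∧
        ∀ x : E, x ≠ 0 → LinearMap.range j ≤ Submodule.span S {x} := by
  obtain ⟨Q, _, _, hQ, j, hj⟩ := exists_injective S T
  set T0 := LinearMap.range j with hT0
  let P : Submodule S Q → Prop := fun E => ∀ x ∈ E, x ≠ 0 → T0 ≤ Submodule.span S {x}
  have hT0P : P T0 := by
    rintro _ ⟨t, rfl⟩ hx
    have ht : t ≠ 0 := fun h => hx (by rw [h, map_zero])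
    have h1 : Submodule.span S {t} = ⊤ := by
      rcases eq_bot_or_eq_top (Submodule.span S {t}) with h | h
      · exact absurd (Submodule.span_singleton_eq_bot.1 h) ht
      · exact h
    have : Submodule.span S {j t} = T0 := by
      rw [← Set.image_singleton, ← Submodule.map_span, h1, Submodule.map_top]
    rw [this]
  -- maximal essential extension
  obtain ⟨E, hTE, hE⟩ := zorn_le_nonempty₀ {E : Submodule S Q | T0 ≤ E ∧ P E} (by
    intro c hc hchain E0 hE0
    refine ⟨sSup c, ⟨?_, ?_⟩, fun z hz => le_sSup hz⟩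
    · exact (hc hE0).1.trans (le_sSup hE0)
    · intro x hx hx0
      rw [Submodule.mem_sSup_of_directed ⟨E0, hE0⟩ hchain.directedOn] at hx
      obtain ⟨E', hE', hxE'⟩ := hx
      exact (hc hE').2 x hxE' hx0) T0 ⟨le_rfl, hT0P⟩
  have hEP : P E := hE.prop.2
  -- maximal complement
  obtain ⟨M, -, hM⟩ := zorn_le_nonempty₀ {M : Submodule S Q | Disjoint M E} (by
    intro c hc hchain M0 hM0
    refine ⟨sSup c, ?_, fun z hz => le_sSup hz⟩
    rw [Set.mem_ofPred_eq, Submodule.disjoint_def]
    intro x hx hxE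
    rw [Submodule.mem_sSup_of_directed ⟨M0, hM0⟩ hchain.directedOn] at hx
    obtain ⟨M', hM', hxM'⟩ := hx
    exact Submodule.disjoint_def.1 (hc hM') x hxM' hxE) ⊥ disjoint_bot_left
  have hMd : Disjoint M E := hM.prop
  -- extend the inclusion of E along E → Q/M
  have hinj : Function.Injective (M.mkQ ∘ₗ E.subtype) := by
    rw [← LinearMap.ker_eq_bot, LinearMap.ker_eq_bot']
    intro x hx
    have : (x : Q) ∈ M := by simpa using hx
    exact Subtype.ext (Submodule.disjoint_def.1 hMd _ this x.2)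
  obtain ⟨g, hg⟩ := hQ.out (M.mkQ ∘ₗ E.subtype) hinj E.subtype
  have hgE : ∀ x ∈ E, g (M.mkQ x) = x := fun x hx => by simpa using hg ⟨x, hx⟩
  -- elements outside M
  have hout : ∀ z : Q, z ∉ M → ∃ s : S, ∃ m ∈ M, s • z + m ∈ E ∧ s • z + m ≠ 0 := by
    intro z hz
    by_contra hcon
    push Not at hcon
    have hd : Disjoint (Submodule.span S {z} ⊔ M) E := by
      rw [Submodule.disjoint_def]
      intro x hx hxE
      obtain ⟨y, hy, m, hm, rfl⟩ := Submodule.mem_sup.1 hx
      obtain ⟨s, rfl⟩ := Submodule.mem_span_singleton.1 hy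
      exact hcon s m hm hxE
    have := hM.le_of_ge hd le_sup_right
    exact hz (this (le_sup_left (α := Submodule S Q) (Submodule.mem_span_singleton_self z)))
  have hrange : LinearMap.range g ≤ E := by
    have hmem : E ⊔ LinearMap.range g ∈ {E : Submodule S Q | T0 ≤ E ∧ P E} := by
      have hEr : E ≤ LinearMap.range g := fun x hx => ⟨M.mkQ x, hgE x hx⟩
      rw [sup_eq_right.2 hEr]
      refine ⟨hTE.trans hEr, ?_⟩
      rintro _ ⟨y, rfl⟩ hy0
      obtain ⟨z, rfl⟩ := M.mkQ_surjective y
      have hz : z ∉ M := fun h => hy0 (by rw [(Submodule.Quotient.mk_eq_zero M).2 h |> fun h => (by simpa using h : M.mkQ z = 0), map_zero])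
      obtain ⟨s, m, hm, hE1, hne⟩ := hout z hz
      refine (hEP _ hE1 hne).trans ?_
      rw [Submodule.span_singleton_le_iff_mem, Submodule.mem_span_singleton]
      refine ⟨s, ?_⟩
      rw [← hgE _ hE1, map_add, map_smul]
      have : M.mkQ m = 0 := by simpa using hm
      rw [this, add_zero, map_smul]
    exact le_sup_right.trans (hE.le_of_ge hmem le_sup_left)
  let ρ : Q →ₗ[S] E := (g ∘ₗ M.mkQ).codRestrict E (fun x => hrange ⟨_, rfl⟩)
  have hρ : ∀ x : E, ρ x = x := fun x => Subtype.ext (by simpa [ρ] using hgE x.1 x.2)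
  refine ⟨E, inferInstance, inferInstance, ⟨fun X Y _ _ _ _ f hf h => ?_⟩,
    j.codRestrict E (fun t => hTE ⟨t, rfl⟩), ?_, ?_⟩
  · obtain ⟨h', hh'⟩ := hQ.out f hf (E.subtype ∘ₗ h)
    refine ⟨ρ ∘ₗ h', fun x => ?_⟩
    rw [LinearMap.comp_apply, hh']
    exact hρ (h x)
  · intro t t' h
    exact hj (congrArg Subtype.val h)
  · intro x hx0
    rintro _ ⟨t, rfl⟩
    have h1 : j t ∈ Submodule.span S {(x : Q)} :=
      hEP x x.2 (fun h => hx0 (Subtype.ext h)) ⟨t, rfl⟩
    obtain ⟨s, hs⟩ := Submodule.mem_span_singleton.1 h1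
    exact Submodule.mem_span_singleton.2 ⟨s, Subtype.ext (by simpa using hs)⟩

section Ring

variable {K W : Type} [Field K] [AddCommGroup W] [Module K W]

theorem rank_mul_left (x y : Module.End K W) : LinearMap.rank (x * y) ≤ LinearMap.rank x :=
  LinearMap.rank_comp_le_left y x

theorem rank_mul_right (x y : Module.End K W) : LinearMap.rank (x * y) ≤ LinearMap.rank y :=
  LinearMap.rank_comp_le_right y x

theorem rank_neg' (x : Module.End K W) : LinearMap.rank (-x) = LinearMap.rank x := by
  have h1 : ∀ y : Module.End K W, LinearMap.rank (-y) ≤ LinearMap.rank y := fun y => by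
    have : -y = (-1 : Module.End K W) * y := by simp
    rw [this]; exact rank_mul_right _ _
  exact le_antisymm (h1 x) (by simpa using h1 (-x))

theorem lt_add' {c : Cardinal} (hc : ℵ₀ ≤ c) {x y : Module.End K W} (hx : LinearMap.rank x < c)
    (hy : LinearMap.rank y < c) : LinearMap.rank (x + y) < c :=
  (LinearMap.rank_add_le x y).trans_lt (Cardinal.add_lt_of_lt hc hx hy)

theorem lt_sub' {c : Cardinal} (hc : ℵ₀ ≤ c) {x y : Module.End K W} (hx : LinearMap.rank x < c)
    (hy : LinearMap.rank y < c) : LinearMap.rank (x - y) < c := by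
  rw [sub_eq_add_neg]
  exact lt_add' hc hx (by rwa [rank_neg'])

/-- Endomorphisms of a vector space have quasi-inverses of no larger rank. -/
theorem exists_qinv (x : Module.End K W) :
    ∃ y : Module.End K W, x * y * x = x ∧ LinearMap.rank y ≤ LinearMap.rank x := by
  obtain ⟨s, hs⟩ := x.rangeRestrict.exists_rightInverse_of_surjective x.range_rangeRestrict
  obtain ⟨π, hπ⟩ := (LinearMap.range x).subtype.exists_leftInverse_of_injective
    (Submodule.ker_subtype _)
  refine ⟨s ∘ₗ π, ?_, ?_⟩
  · ext w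
    have h1 : π (x w) = x.rangeRestrict w := LinearMap.congr_fun hπ (x.rangeRestrict w)
    have h2 : x.rangeRestrict (s (x.rangeRestrict w)) = x.rangeRestrict w :=
      LinearMap.congr_fun hs _
    change x (s (π (x w))) = x w
    rw [h1]
    exact congrArg Subtype.val h2
  · refine (LinearMap.rank_comp_le_left π s).trans ?_
    exact LinearMap.rank_le_domain s |>.trans le_rfl

/-- If `rank i ≤ rank r` then `i = u r v` with `rank u, rank v ≤ rank i`. -/
theorem factor (i r : Module.End K W) (h : LinearMap.rank i ≤ LinearMap.rank r) :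
    ∃ u v : Module.End K W, i = u * r * v ∧ LinearMap.rank u ≤ LinearMap.rank i ∧
      LinearMap.rank v ≤ LinearMap.rank i := by
  obtain ⟨θ, hθ⟩ := rank_le_iff_exists_linearMap.1 h
  obtain ⟨u0, hu0⟩ := θ.exists_leftInverse_of_injective (LinearMap.ker_eq_bot.2 hθ)
  obtain ⟨s, hs⟩ := r.rangeRestrict.exists_rightInverse_of_surjective r.range_rangeRestrict
  obtain ⟨π, hπ⟩ := (LinearMap.range r).subtype.exists_leftInverse_of_injective
    (Submodule.ker_subtype _)
  refine ⟨(LinearMap.range i).subtype ∘ₗ u0 ∘ₗ π, s ∘ₗ θ ∘ₗ i.rangeRestrict, ?_, ?_, ?_⟩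
  · ext w
    change i w = ((u0 (π (r (s (θ (i.rangeRestrict w)))))) : W)
    have h2 : r.rangeRestrict (s (θ (i.rangeRestrict w))) = θ (i.rangeRestrict w) :=
      LinearMap.congr_fun hs _
    have h1 : π (r (s (θ (i.rangeRestrict w)))) = r.rangeRestrict (s (θ (i.rangeRestrict w))) :=
      LinearMap.congr_fun hπ (r.rangeRestrict _)
    rw [h1, h2]
    have h3 : u0 (θ (i.rangeRestrict w)) = i.rangeRestrict w := LinearMap.congr_fun hu0 _
    rw [h3]
    rfl
  · refine (LinearMap.rank_comp_le_left _ _).trans ?_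
    exact LinearMap.rank_le_domain _
  · rw [← LinearMap.comp_assoc]
    refine (LinearMap.rank_comp_le_left _ _).trans ?_
    exact LinearMap.rank_le_domain _

variable (p : Module.End K W)

/-- The ring of the endomorphisms commuting with `p` up to an endomorphism of rank less than
`ℵ_ω`. -/
def ringR : Subring (Module.End K W) where
  carrier := {x | LinearMap.rank (x * p - p * x) < ℵ_ Ordinal.omega0}
  mul_mem' := by
    intro x y hx hy
    rw [Set.mem_ofPred_eq] at hx hy ⊢
    have : x * y * p - p * (x * y) = x * (y * p - p * y) + (x * p - p * x) * y := by noncomm_ring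
    rw [this]
    exact lt_add' (aleph0_le_aleph _) ((rank_mul_right _ _).trans_lt hy)
      ((rank_mul_left _ _).trans_lt hx)
  one_mem' := by
    rw [Set.mem_ofPred_eq, one_mul, mul_one, sub_self]
    have : LinearMap.rank (0 : Module.End K W) = 0 := LinearMap.rank_zero
    rw [this]
    exact aleph_pos _
  add_mem' := by
    intro x y hx hy
    rw [Set.mem_ofPred_eq] at hx hy ⊢
    have : (x + y) * p - p * (x + y) = (x * p - p * x) + (y * p - p * y) := by noncomm_ring
    rw [this]
    exact lt_add' (aleph0_le_aleph _) hx hy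
  zero_mem' := by
    rw [Set.mem_ofPred_eq, zero_mul, mul_zero, sub_self]
    have : LinearMap.rank (0 : Module.End K W) = 0 := LinearMap.rank_zero
    rw [this]
    exact aleph_pos _
  neg_mem' := by
    intro x hx
    rw [Set.mem_ofPred_eq] at hx ⊢
    have : -x * p - p * -x = -(x * p - p * x) := by noncomm_ring
    rw [this, rank_neg']
    exact hx

theorem mem_ringR {x : Module.End K W} : x ∈ ringR p ↔ LinearMap.rank (x * p - p * x) < ℵ_ Ordinal.omega0 :=
  Iff.rfl

theorem mem_ringR_of_lt {x : Module.End K W} (h : LinearMap.rank x < ℵ_ Ordinal.omega0) : x ∈ ringR p := by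
  rw [mem_ringR]
  exact lt_sub' (aleph0_le_aleph _) ((rank_mul_left _ _).trans_lt h)
    ((rank_mul_right _ _).trans_lt h)

/-- The ring `R` is von Neumann regular. -/
theorem regular (hp : p * p = p) (x : ringR p) : ∃ y : ringR p, x * y * x = x := by
  obtain ⟨x, hx⟩ := x
  rw [mem_ringR] at hx
  obtain ⟨a, ha, -⟩ := exists_qinv (p * x * p)
  obtain ⟨b, hb, -⟩ := exists_qinv ((1 - p) * x * (1 - p))
  set q := 1 - p with hq
  have hqq : q * q = q := by rw [hq, mul_sub, sub_mul, sub_mul, hp]; simp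
  have hpq : p * q = 0 := by rw [hq, mul_sub, hp, mul_one, sub_self]
  have hqp : q * p = 0 := by rw [hq, sub_mul, hp, one_mul, sub_self]
  set x0 := p * a * p + q * b * q with hx0
  have hx0mem : x0 * p = p * x0 := by
    have e1 : x0 * p = p * a * p := by
      rw [hx0, add_mul, mul_assoc (q * b) q p, hqp, mul_zero, add_zero, mul_assoc (p * a), hp]
    have e2 : p * x0 = p * a * p := by
      rw [hx0, mul_add, ← mul_assoc p (q * b) q, ← mul_assoc p q b, hpq, zero_mul, zero_mul,
        add_zero, ← mul_assoc, ← mul_assoc, hp]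
    rw [e1, e2]
  -- the off-diagonal part
  set i := p * x * q + q * x * p with hi
  have hxi : x = p * x * p + q * x * q + i := by
    have : x = (p + q) * x * (p + q) := by rw [hq]; simp
    calc x = (p + q) * x * (p + q) := this
      _ = p * x * p + q * x * q + i := by rw [hi]; noncomm_ring
  have hismall : LinearMap.rank i < ℵ_ Ordinal.omega0 := by
    have e1 : p * x * q = -((x * p - p * x) * q) := by
      rw [sub_mul, mul_assoc x p q, hpq, mul_zero, zero_sub, neg_neg]
    have e2 : q * x * p = q * (x * p - p * x) := by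
      rw [mul_sub, ← mul_assoc, ← mul_assoc, hqp, zero_mul, sub_zero]
    rw [hi, e1, e2]
    refine lt_add' (aleph0_le_aleph _) ?_ ((rank_mul_right _ _).trans_lt hx)
    rw [rank_neg']
    exact (rank_mul_left _ _).trans_lt hx
  set d := p * x * p + q * x * q with hd
  have hd0 : d * x0 * d = d := by
    have e1 : p * x * p * x0 = p * x * p * a * p := by
      rw [hx0, mul_add]
      have : p * x * p * (q * b * q) = 0 := by
        rw [← mul_assoc, ← mul_assoc, mul_assoc (p * x) p q, hpq, mul_zero, zero_mul, zero_mul]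
      rw [this, add_zero, ← mul_assoc, ← mul_assoc, mul_assoc (p * x) p p, hp]
    have e2 : q * x * q * x0 = q * x * q * b * q := by
      rw [hx0, mul_add]
      have : q * x * q * (p * a * p) = 0 := by
        rw [← mul_assoc, ← mul_assoc, mul_assoc (q * x) q p, hqp, mul_zero, zero_mul, zero_mul]
      rw [this, zero_add, ← mul_assoc, ← mul_assoc, mul_assoc (q * x) q q, hqq]
    rw [hd, add_mul, e1, e2, add_mul, mul_add, mul_add]
    have c1 : p * x * p * a * p * (p * x * p) = p * x * p := by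
      rw [← mul_assoc, ← mul_assoc, mul_assoc (p * x * p * a) p p, hp]
      calc p * x * p * a * p * x * p = p * x * p * a * (p * x * p) := by simp only [mul_assoc]
        _ = p * x * p := ha
    have c2 : p * x * p * a * p * (q * x * q) = 0 := by
      rw [← mul_assoc, ← mul_assoc, mul_assoc (p * x * p * a) p q, hpq, mul_zero, zero_mul,
        zero_mul]
    have c3 : q * x * q * b * q * (p * x * p) = 0 := by
      rw [← mul_assoc, ← mul_assoc, mul_assoc (q * x * q * b) q p, hqp, mul_zero, zero_mul,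
        zero_mul]
    have c4 : q * x * q * b * q * (q * x * q) = q * x * q := by
      rw [← mul_assoc, ← mul_assoc, mul_assoc (q * x * q * b) q q, hqq]
      calc q * x * q * b * q * x * q = q * x * q * b * (q * x * q) := by simp only [mul_assoc]
        _ = q * x * q := hb
    rw [c1, c2, c3, c4, add_zero, zero_add]
  set u := x - x * x0 * x with hu
  have husmall : LinearMap.rank u < ℵ_ Ordinal.omega0 := by
    have : u = i - (d * x0 * i + i * x0 * d + i * x0 * i) := by
      rw [hu]
      conv_lhs => rw [hxi]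
      have : (d + i) - (d + i) * x0 * (d + i) =
          d + i - (d * x0 * d + (d * x0 * i + i * x0 * d + i * x0 * i)) := by noncomm_ring
      rw [this, hd0]
      abel
    rw [this]
    have hc := aleph0_le_aleph Ordinal.omega0
    refine lt_sub' hc hismall (lt_add' hc (lt_add' hc ?_ ?_) ?_)
    · exact (rank_mul_right _ _).trans_lt hismall
    · rw [mul_assoc]; exact (rank_mul_left _ _).trans_lt hismall
    · exact (rank_mul_right _ _).trans_lt hismall
  obtain ⟨z, hz, hzr⟩ := exists_qinv u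
  have hzsmall := hzr.trans_lt husmall
  have hx0R : x0 ∈ ringR p := by
    rw [mem_ringR, hx0mem, sub_self]
    have : LinearMap.rank (0 : Module.End K W) = 0 := LinearMap.rank_zero
    rw [this]
    exact aleph_pos _
  have hzR : z ∈ ringR p := mem_ringR_of_lt p hzsmall
  refine ⟨⟨x0, hx0R⟩ + (1 - ⟨x0, hx0R⟩ * ⟨x, hx⟩) * ⟨z, hzR⟩ * (1 - ⟨x, hx⟩ * ⟨x0, hx0R⟩), ?_⟩
  apply Subtype.ext
  change x * (x0 + (1 - x0 * x) * z * (1 - x * x0)) * x = x
  have : x * (x0 + (1 - x0 * x) * z * (1 - x * x0)) * x =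
      x * x0 * x + (x - x * x0 * x) * z * (x - x * x0 * x) := by noncomm_ring
  rw [this, ← hu, hz, hu]
  abel

end Ring

/-! ### The counterexample -/

section Points

variable {K W : Type} [Field K] [AddCommGroup W] [Module K W] (p : Module.End K W)

theorem rank_zero' : LinearMap.rank (0 : Module.End K W) = 0 := LinearMap.rank_zero

/-- Idempotents of prescribed rank. -/
theorem exists_idem {c : Cardinal} (hc : c ≤ Module.rank K W) :
    ∃ e : Module.End K W, e * e = e ∧ LinearMap.rank e = c := by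
  obtain ⟨s, hs, hli⟩ := le_rank_iff_exists_linearIndependent.1 hc
  obtain ⟨π, hπ⟩ := (Submodule.span K s).subtype.exists_leftInverse_of_injective
    (Submodule.ker_subtype _)
  have hπ' : ∀ x : Submodule.span K s, π x = x := fun x => LinearMap.congr_fun hπ x
  refine ⟨(Submodule.span K s).subtype ∘ₗ π, ?_, ?_⟩
  · ext w
    change ((π ((π w : Submodule.span K s) : W) : Submodule.span K s) : W) = π w
    rw [hπ']
  · have hr : LinearMap.range ((Submodule.span K s).subtype ∘ₗ π) = Submodule.span K s := by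
      apply le_antisymm
      · rintro _ ⟨w, rfl⟩
        exact (π w).2
      · intro x hx
        exact ⟨x, congrArg Subtype.val (hπ' ⟨x, hx⟩)⟩
    rw [LinearMap.rank, hr, rank_span_set hli, hs]

/-- The simple module with prescribed annihilation behaviour. -/
theorem exists_simple (n : ℕ) (e : ringR p) (he : e * e = e)
    (her : LinearMap.rank (e : Module.End K W) = ℵ_ (n : Ordinal)) :
    ∃ M : Ideal (ringR p)ᵐᵒᵖ, M.IsMaximal ∧
      (∀ x : ringR p, LinearMap.rank (x : Module.End K W) < ℵ_ (n : Ordinal) → op x ∈ M) ∧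
      op e ∉ M := by
  have hc := aleph0_le_aleph (n : Ordinal)
  let A : Ideal (ringR p)ᵐᵒᵖ :=
    { carrier := {x | LinearMap.rank ((e * unop x : ringR p) : Module.End K W) < ℵ_ (n : Ordinal)}
      add_mem' := by
        intro x y hx hy
        rw [Set.mem_ofPred_eq] at hx hy ⊢
        rw [unop_add, mul_add, Subring.coe_add]
        exact lt_add' hc hx hy
      zero_mem' := by
        rw [Set.mem_ofPred_eq, unop_zero, mul_zero, Subring.coe_zero, rank_zero']
        exact aleph_pos _
      smul_mem' := by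
        intro r x hx
        rw [Set.mem_ofPred_eq] at hx ⊢
        rw [smul_eq_mul, unop_mul, ← mul_assoc, Subring.coe_mul]
        exact (rank_mul_left _ _).trans_lt hx }
  have hmemA : ∀ x : (ringR p)ᵐᵒᵖ, x ∈ A ↔
    LinearMap.rank ((e * unop x : ringR p) : Module.End K W) < ℵ_ (n : Ordinal) := fun x => Iff.rfl
  have hA : A ≠ ⊤ := by
    intro h
    have : (1 : (ringR p)ᵐᵒᵖ) ∈ A := by rw [h]; trivial
    rw [hmemA, unop_one, mul_one, her] at this
    exact lt_irrefl _ this
  obtain ⟨M, hM, hAM⟩ := Ideal.exists_le_maximal A hA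
  refine ⟨M, hM, fun x hx => hAM ?_, fun h => ?_⟩
  · rw [hmemA, unop_op, Subring.coe_mul]
    exact (rank_mul_right _ _).trans_lt hx
  · have h1 : op (1 - e) ∈ M := by
      apply hAM
      rw [hmemA, unop_op, mul_sub, he, mul_one, sub_self, Subring.coe_zero, rank_zero']
      exact aleph_pos _
    have h2 := M.add_mem h1 h
    rw [← op_add, sub_add_cancel, op_one] at h2
    exact hM.ne_top ((Ideal.eq_top_iff_one M).2 h2)

/-- The injective hull of a suitable simple module. -/
theorem exists_point_aux {R : Type} [Ring R] (hR : ∀ a : R, ∃ x : R, a * x * a = a)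
    (I : R → Prop) (hl : ∀ x y, I x → I (y * x)) (hr : ∀ x y, I x → I (x * y))
    (M : Ideal Rᵐᵒᵖ) (hM : M.IsMaximal) (hIM : ∀ x, I x → op x ∈ M) (e : R) (he : op e ∉ M) :
    ∃ N : IndecPureInj R, (∀ x, I x → ∀ v : N.carrier, op x • v = 0) ∧
      ∃ v : N.carrier, op e • v ≠ 0 := by
  have hsimple : IsSimpleModule Rᵐᵒᵖ (Rᵐᵒᵖ ⧸ M) := isSimpleModule_iff_isCoatom.2 hM.out
  have hT1 : ∀ x : R, I x → ∀ t : Rᵐᵒᵖ ⧸ M, op x • t = 0 := by
    intro x hx t
    obtain ⟨y, rfl⟩ := Submodule.Quotient.mk_surjective M t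
    rw [← Submodule.Quotient.mk_smul, Submodule.Quotient.mk_eq_zero]
    exact hIM _ (hl x (unop y) hx)
  have hT2 : op e • (Submodule.Quotient.mk 1 : Rᵐᵒᵖ ⧸ M) ≠ 0 := by
    intro h
    rw [← Submodule.Quotient.mk_smul, Submodule.Quotient.mk_eq_zero, smul_eq_mul, mul_one] at h
    exact he h
  obtain ⟨E, _, _, hE, j, hj, hess⟩ := exists_hull Rᵐᵒᵖ (Rᵐᵒᵖ ⧸ M)
  set t0 : Rᵐᵒᵖ ⧸ M := Submodule.Quotient.mk 1 with ht0
  have ht0' : j t0 ≠ 0 := by
    intro h
    have : t0 = 0 := hj (by rw [h, map_zero])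
    exact hT2 (by rw [this, smul_zero])
  refine ⟨⟨E, ?_, ?_⟩, ?_, j t0, ?_⟩
  · intro A B _ _ _ _ f hf g
    exact hE.out f hf.1 g
  · refine ⟨⟨j t0, 0, ht0'⟩, fun A B hAB => ?_⟩
    by_contra hcon
    rw [not_or] at hcon
    obtain ⟨x, hx, hx0⟩ := Submodule.exists_mem_ne_zero_of_ne_bot hcon.1
    obtain ⟨y, hy, hy0⟩ := Submodule.exists_mem_ne_zero_of_ne_bot hcon.2
    have h1 : j t0 ∈ A := ((hess x hx0).trans ((Submodule.span_singleton_le_iff_mem _ _).2 hx))
      ⟨t0, rfl⟩
    have h2 : j t0 ∈ B := ((hess y hy0).trans ((Submodule.span_singleton_le_iff_mem _ _).2 hy))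
      ⟨t0, rfl⟩
    exact ht0' (Submodule.disjoint_def.1 hAB.disjoint _ h1 h2)
  · intro k hk v
    change E at v
    by_contra hne
    obtain ⟨s, hs⟩ := Submodule.mem_span_singleton.1 (hess (op k • v) hne ⟨t0, rfl⟩)
    obtain ⟨z, hz⟩ := hR (k * unop s)
    have hk' : I (k * unop s) := hr _ _ hk
    have h1 : op (k * unop s) • v = j t0 := by
      rw [op_mul, op_unop, mul_smul]
      exact hs
    have h2 : op (z * (k * unop s)) • j t0 = j t0 := by
      rw [← h1, ← mul_smul, ← op_mul, ← mul_assoc, hz]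
    rw [← map_smul, hT1 _ (hl _ _ hk') t0, map_zero] at h2
    exact ht0' h2.symm
  · rw [← map_smul]
    intro h
    exact hT2 (hj (by rw [h, map_zero]))

/-- The module with prescribed annihilation behaviour. -/
theorem exists_point (hp : p * p = p) (n : ℕ) (hn : ℵ_ (n : Ordinal) ≤ Module.rank K W) :
    ∃ (N : IndecPureInj (ringR p)),
      (∀ x : ringR p, LinearMap.rank (x : Module.End K W) < ℵ_ (n : Ordinal) →
        ∀ v : N.carrier, op x • v = 0) ∧
      ∃ x : ringR p, LinearMap.rank (x : Module.End K W) < ℵ_ Ordinal.omega0 ∧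
        ∃ v : N.carrier, op x • v ≠ 0 := by
  obtain ⟨e, he, her⟩ := exists_idem hn
  have hlt : ℵ_ (n : Ordinal) < ℵ_ Ordinal.omega0 :=
    aleph_lt_aleph.2 (Ordinal.natCast_lt_omega0 n)
  have heR : e ∈ ringR p := mem_ringR_of_lt p (her ▸ hlt)
  obtain ⟨M, hM, hM1, hM2⟩ := exists_simple p n ⟨e, heR⟩ (Subtype.ext he) her
  obtain ⟨N, hN1, hN2⟩ := exists_point_aux (regular p hp)
    (fun x : ringR p => LinearMap.rank (x : Module.End K W) < ℵ_ (n : Ordinal))
    (fun x y hx => by
      rw [Subring.coe_mul]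
      exact (rank_mul_right _ _).trans_lt hx)
    (fun x y hx => by
      rw [Subring.coe_mul]
      exact (rank_mul_left _ _).trans_lt hx) M hM hM1 ⟨e, heR⟩ hM2
  exact ⟨N, hN1, ⟨e, heR⟩, her ▸ hlt, hN2⟩

variable {p}

/-- If `N r = 0` with `rank r ≥ ℵ_ω` then `N x = 0` for all `x` of rank less than `ℵ_ω`. -/
theorem kills {N : Type} [AddCommGroup N] [Module (ringR p)ᵐᵒᵖ N] (r : ringR p)
    (hr : ℵ_ Ordinal.omega0 ≤ LinearMap.rank (r : Module.End K W))
    (h : ∀ v : N, op r • v = 0) (x : ringR p)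
    (hx : LinearMap.rank (x : Module.End K W) < ℵ_ Ordinal.omega0) (v : N) : op x • v = 0 := by
  obtain ⟨u, w, hxe, hu, hw⟩ := factor (x : Module.End K W) r (hx.le.trans hr)
  have huR : u ∈ ringR p := mem_ringR_of_lt p (hu.trans_lt hx)
  have hwR : w ∈ ringR p := mem_ringR_of_lt p (hw.trans_lt hx)
  have : x = ⟨u, huR⟩ * r * ⟨w, hwR⟩ := Subtype.ext hxe
  rw [this, op_mul, op_mul, mul_smul, mul_smul, h, smul_zero]

/-- An indecomposable module not killed by `p` nor by `1 - p` is not killed by all the elements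
of rank less than `ℵ_ω`. -/
theorem not_kills (hp : p * p = p) (P : ringR p) (hP : (P : Module.End K W) = p)
    {N : Type} [AddCommGroup N] [Module (ringR p)ᵐᵒᵖ N]
    (hN : IsIndecomposable (ringR p) N) (h1 : ∃ v : N, op P • v ≠ 0)
    (h2 : ∃ v : N, op (1 - P) • v ≠ 0) :
    ∃ x : ringR p, LinearMap.rank (x : Module.End K W) < ℵ_ Ordinal.omega0 ∧
      ∃ v : N, op x • v ≠ 0 := by
  by_contra hcon
  push Not at hcon
  have hPP : P * P = P := Subtype.ext (by rw [Subring.coe_mul, hP, hp])
  have hcomm : ∀ (r : ringR p) (v : N), op P • op r • v = op r • op P • v := by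
    intro r v
    have h := hcon (r * P - P * r) (by
      rw [AddSubgroupClass.coe_sub, Subring.coe_mul, Subring.coe_mul, hP]
      exact r.2) v
    rw [op_sub, sub_smul, op_mul, op_mul, mul_smul, mul_smul] at h
    exact sub_eq_zero.1 h
  let A : Submodule (ringR p)ᵐᵒᵖ N :=
    { carrier := {v | op P • v = v}
      add_mem' := by
        intro x y hx hy
        rw [Set.mem_ofPred_eq] at hx hy ⊢
        rw [smul_add, hx, hy]
      zero_mem' := by
        rw [Set.mem_ofPred_eq, smul_zero]
      smul_mem' := by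
        intro r x hx
        rw [Set.mem_ofPred_eq] at hx ⊢
        have := hcomm (unop r) x
        rw [op_unop] at this
        rw [this, hx] }
  let B : Submodule (ringR p)ᵐᵒᵖ N :=
    { carrier := {v | op P • v = 0}
      add_mem' := by
        intro x y hx hy
        rw [Set.mem_ofPred_eq] at hx hy ⊢
        rw [smul_add, hx, hy, add_zero]
      zero_mem' := by
        rw [Set.mem_ofPred_eq, smul_zero]
      smul_mem' := by
        intro r x hx
        rw [Set.mem_ofPred_eq] at hx ⊢
        have := hcomm (unop r) x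
        rw [op_unop] at this
        rw [this, hx, smul_zero] }
  have hPA : ∀ v : N, op P • v ∈ A := fun v => by
    change op P • op P • v = op P • v
    rw [← mul_smul, ← op_mul, hPP]
  have hPB : ∀ v : N, op (1 - P) • v ∈ B := fun v => by
    change op P • op (1 - P) • v = 0
    rw [← mul_smul, ← op_mul, sub_mul, one_mul, hPP, sub_self, op_zero, zero_smul]
  have hcompl : IsCompl A B := by
    constructor
    · rw [Submodule.disjoint_def]
      intro x hx hx'
      change op P • x = x at hx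
      change op P • x = 0 at hx'
      rw [← hx, hx']
    · rw [codisjoint_iff, eq_top_iff]
      intro v _
      rw [Submodule.mem_sup]
      refine ⟨_, hPA v, _, hPB v, ?_⟩
      rw [← add_smul, ← op_add, add_sub_cancel, op_one, one_smul]
  rcases hN.2 A B hcompl with h | h
  · obtain ⟨v, hv⟩ := h1
    have := hPA v
    rw [h, Submodule.mem_bot] at this
    exact hv this
  · obtain ⟨v, hv⟩ := h2
    have := hPB v
    rw [h, Submodule.mem_bot] at this
    exact hv this

theorem lt_aleph_omega {c : Cardinal} (h : c < ℵ_ Ordinal.omega0) :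
    ∃ n : ℕ, c < ℵ_ (n : Ordinal) := by
  obtain ⟨a, ha, hc⟩ := (isNormal_aleph.lt_iff_exists_lt Ordinal.isSuccLimit_omega0).1 h
  obtain ⟨n, rfl⟩ := Ordinal.lt_omega0.1 ha
  exact ⟨n, hc⟩

end Points

/-- Over a von Neumann regular ring a union of two sets `(φ/ψ)` is a set `(φ/ψ)`. -/
theorem union_basic {R : Type} [Ring R] (hR : ∀ a : R, ∃ x : R, a * x * a = a)
    (P Q : PPPair R) : ∃ S : PPPair R, S.basic = P.basic ∪ Q.basic := by
  obtain ⟨r, hr⟩ := pair_eq hR P
  obtain ⟨s, hs⟩ := pair_eq hR Q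
  obtain ⟨γ, hγ⟩ := exists_left_unit hR 2 ![r, s]
  set e := ∑ i, ![r, s] i * γ i with he
  have h0 : e * r = r := hγ 0
  have h1 : e * s = s := hγ 1
  have he' : e = r * γ 0 + s * γ 1 := by rw [he, Fin.sum_univ_two]; rfl
  refine ⟨divPair e, ?_⟩
  ext x
  obtain ⟨N, rfl⟩ := exists_cls x
  rw [Set.mem_union, mem_basic, mem_basic, mem_basic, hr, hs, divPair_iff]
  constructor
  · rintro ⟨v, hv⟩
    by_contra hcon
    push Not at hcon
    apply hv
    rw [he', op_add, add_smul, op_mul, op_mul, mul_smul, mul_smul, hcon.1, hcon.2, smul_zero,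
      smul_zero, add_zero]
  · rintro (⟨v, hv⟩ | ⟨v, hv⟩)
    · refine ⟨v, fun h => hv ?_⟩
      rw [← h0, op_mul, mul_smul, h, smul_zero]
    · refine ⟨v, fun h => hv ?_⟩
      rw [← h1, op_mul, mul_smul, h, smul_zero]

/-- Over a von Neumann regular ring the Zariski-closed sets are the intersections of families of
sets `(φ/ψ)`. -/
theorem closed_iff {R : Type} [Ring R] (hR : ∀ a : R, ∃ x : R, a * x * a = a)
    (T : Set (Zg R)) :
    @IsClosed _ (zariski R) T ↔ ∃ F : Set (PPPair R), T = ⋂ P ∈ F, P.basic := by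
  let _ := zariski R
  have hbasic : ∀ P : PPPair R, IsClosed P.basic := fun P =>
    ⟨TopologicalSpace.isOpen_generateFrom_of_mem ⟨P, rfl⟩⟩
  constructor
  · intro hT
    have key : ∀ U : Set (Zg R), TopologicalSpace.GenerateOpen
        {U | ∃ P : PPPair R, U = (P.basic)ᶜ} U → ∀ x ∈ U, ∃ P : PPPair R,
          x ∉ P.basic ∧ Uᶜ ⊆ P.basic := by
      intro U hU
      induction hU with
      | basic s hs =>
        obtain ⟨P, rfl⟩ := hs
        intro x hx
        exact ⟨P, hx, by rw [compl_compl]⟩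
      | univ =>
        intro x _
        refine ⟨divPair 0, ?_, by simp⟩
        obtain ⟨N, rfl⟩ := exists_cls x
        rw [mem_basic, divPair_iff]
        simp
      | inter s t _ _ ihs iht =>
        intro x hx
        obtain ⟨P, hP, hP'⟩ := ihs x hx.1
        obtain ⟨Q, hQ, hQ'⟩ := iht x hx.2
        obtain ⟨S, hS⟩ := union_basic hR P Q
        refine ⟨S, ?_, ?_⟩
        · rw [hS]
          rintro (h | h)
          · exact hP h
          · exact hQ h
        · rw [hS, Set.compl_inter]
          exact Set.union_subset_union hP' hQ'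
      | sUnion S _ ih =>
        intro x hx
        obtain ⟨s, hs, hxs⟩ := hx
        obtain ⟨P, hP, hP'⟩ := ih s hs x hxs
        refine ⟨P, hP, subset_trans ?_ hP'⟩
        exact Set.compl_subset_compl.2 (Set.subset_sUnion_of_mem hs)
    refine ⟨{P | T ⊆ P.basic}, ?_⟩
    apply subset_antisymm
    · exact Set.subset_iInter₂ fun P hP => hP
    · intro x hx
      by_contra hxT
      obtain ⟨P, hP, hP'⟩ := key Tᶜ hT.isOpen_compl x hxT
      rw [compl_compl] at hP'
      exact hP (Set.mem_iInter₂.1 hx P hP')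
  · rintro ⟨F, rfl⟩
    exact isClosed_biInter fun P _ => hbasic P

/-- The main argument. -/
theorem main {K W : Type} [Field K] [AddCommGroup W] [Module K W] (p : Module.End K W)
    (hp : p * p = p) (hrp : ℵ_ Ordinal.omega0 ≤ LinearMap.rank p)
    (hrq : ℵ_ Ordinal.omega0 ≤ LinearMap.rank (1 - p)) :
    ∃ C : Set (Zg (ringR p)),
      @IsClosed _ (zariski (ringR p)) C ∧ @IsIrreducible _ (zariski (ringR p)) C ∧
      ∀ x ∈ C, @closure _ (zariski (ringR p)) {x} ≠ C := by
  have hW : ∀ n : ℕ, ℵ_ (n : Ordinal) ≤ Module.rank K W := fun n =>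
    ((aleph_lt_aleph.2 (Ordinal.natCast_lt_omega0 n)).le.trans hrp).trans
      (LinearMap.rank_le_domain p)
  have hreg : ∀ a : ringR p, ∃ x : ringR p, a * x * a = a := regular p hp
  have hpR : p ∈ ringR p := by
    rw [mem_ringR, sub_self, rank_zero']
    exact aleph_pos _
  let P : ringR p := ⟨p, hpR⟩
  choose N hN1 hN2 using fun n => exists_point p hp n (hW n)
  let pt : ℕ → Zg (ringR p) := fun n => cls (N n)
  let C : Set (Zg (ringR p)) := (divPair P).basic ∩ (divPair (1 - P)).basic
  let _ := zariski (ringR p)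
  have hbasic : ∀ P : PPPair (ringR p), IsClosed P.basic := fun P =>
    ⟨TopologicalSpace.isOpen_generateFrom_of_mem ⟨P, rfl⟩⟩
  have hptC : ∀ n, pt n ∈ C := by
    intro n
    obtain ⟨x, hx, v, hv⟩ := hN2 n
    constructor
    · refine (mem_basic _ _).2 ((divPair_iff _ _).2 ?_)
      by_contra hcon
      push Not at hcon
      exact hv (kills P hrp hcon x hx v)
    · refine (mem_basic _ _).2 ((divPair_iff _ _).2 ?_)
      by_contra hcon
      push Not at hcon
      exact hv (kills (1 - P) hrq hcon x hx v)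
  have hC : ∀ M : IndecPureInj (ringR p), cls M ∈ C →
      ∃ x : ringR p, LinearMap.rank (x : Module.End K W) < ℵ_ Ordinal.omega0 ∧
        ∃ v : M.carrier, op x • v ≠ 0 := by
    intro M hM
    have h1 := hM.1
    have h2 := hM.2
    rw [mem_basic, divPair_iff] at h1 h2
    exact not_kills hp P rfl M.indec h1 h2
  -- every open set meeting `C` contains almost all the points `pt n`
  have key : ∀ U : Set (Zg (ringR p)), TopologicalSpace.GenerateOpen
      {U | ∃ P : PPPair (ringR p), U = (P.basic)ᶜ} U → ∀ x ∈ U, x ∈ C →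
        ∃ n0 : ℕ, ∀ n ≥ n0, pt n ∈ U := by
    intro U hU
    induction hU with
    | basic s hs =>
      obtain ⟨Q, rfl⟩ := hs
      intro x hx hxC
      obtain ⟨M, rfl⟩ := exists_cls x
      obtain ⟨r, hr⟩ := pair_eq hreg Q
      have hM : ∀ v : M.carrier, op r • v = 0 := by
        by_contra hcon
        push Not at hcon
        apply hx
        rw [mem_basic, hr]
        exact hcon
      have hrank : LinearMap.rank (r : Module.End K W) < ℵ_ Ordinal.omega0 := by
        by_contra hcon
        obtain ⟨y, hy, v, hv⟩ := hC M hxC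
        exact hv (kills r (not_lt.1 hcon) hM y hy v)
      obtain ⟨n0, hn0⟩ := lt_aleph_omega hrank
      refine ⟨n0, fun n hn => ?_⟩
      intro hmem
      obtain ⟨v, hv⟩ := (hr _).1 ((mem_basic _ _).1 hmem)
      refine hv (hN1 n r (hn0.trans_le (aleph_le_aleph.2 ?_)) v)
      exact_mod_cast hn
    | univ =>
      intro x _ _
      exact ⟨0, fun n _ => trivial⟩
    | inter s t _ _ ihs iht =>
      intro x hx hxC
      obtain ⟨a, ha⟩ := ihs x hx.1 hxC
      obtain ⟨b, hb⟩ := iht x hx.2 hxC
      exact ⟨max a b, fun n hn =>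
        ⟨ha n ((le_max_left a b).trans hn), hb n ((le_max_right a b).trans hn)⟩⟩
    | sUnion S _ ih =>
      intro x hx hxC
      obtain ⟨s, hs, hxs⟩ := hx
      obtain ⟨a, ha⟩ := ih s hs x hxs hxC
      exact ⟨a, fun n hn => ⟨s, hs, ha n hn⟩⟩
  refine ⟨C, (hbasic _).inter (hbasic _), ⟨?_, ?_⟩, ?_⟩
  · exact ⟨pt 0, hptC 0⟩
  · rintro U U' hU hU' ⟨x, hxC, hxU⟩ ⟨y, hyC, hyU⟩
    obtain ⟨a, ha⟩ := key U hU x hxU hxC
    obtain ⟨b, hb⟩ := key U' hU' y hyU hyC
    exact ⟨pt (max a b), hptC _, ha _ (le_max_left _ _), hb _ (le_max_right _ _)⟩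
  · intro x hxC hclos
    obtain ⟨M, rfl⟩ := exists_cls x
    obtain ⟨y, hy, v, hv⟩ := hC M hxC
    obtain ⟨n, hn⟩ := lt_aleph_omega hy
    have h1 : closure {cls M} ⊆
        (divPair y).basic := by
      refine closure_minimal ?_ (hbasic _)
      rw [Set.singleton_subset_iff, mem_basic, divPair_iff]
      exact ⟨v, hv⟩
    have h2 : pt n ∈ (divPair y).basic := h1 (by rw [hclos]; exact hptC n)
    obtain ⟨w, hw⟩ := (divPair_iff _ _).1 ((mem_basic _ _).1 h2)
    exact hw (hN1 n y hn w)


/-- There are a ring `R` and an irreducible Zariski-closed subset `C` of the rep-Zariski spectrum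
of `R` without generic point. -/
theorem result : ∃ (R : Type) (_ : Ring R) (C : Set (Zg R)),
    (∀ T : Set (Zg R), @IsClosed _ (zariski R) T ↔
      ∃ F : Set (PPPair R), T = ⋂ P ∈ F, P.basic) ∧
    @IsClosed _ (zariski R) C ∧ @IsIrreducible _ (zariski R) C ∧
    ∀ x ∈ C, @closure _ (zariski R) {x} ≠ C := by
  let ι : Type := (ℵ_ Ordinal.omega0 : Cardinal.{0}).out
  have hι : #ι = ℵ_ Ordinal.omega0 := Cardinal.mk_out _
  let V : Type := ι →₀ ℚ
  have hV : Module.rank ℚ V = ℵ_ Ordinal.omega0 := by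
    rw [rank_finsupp_self', hι]
  let p : Module.End ℚ (V × V) := LinearMap.inl ℚ V V ∘ₗ LinearMap.fst ℚ V V
  have hp : p * p = p := by
    ext <;> simp [p]
  have hid : LinearMap.rank (LinearMap.id : V →ₗ[ℚ] V) = ℵ_ Ordinal.omega0 := by
    rw [LinearMap.rank, LinearMap.range_id, rank_top, hV]
  have hrp : ℵ_ Ordinal.omega0 ≤ LinearMap.rank p := by
    have h : (LinearMap.id : V →ₗ[ℚ] V) =
        (LinearMap.fst ℚ V V ∘ₗ p) ∘ₗ LinearMap.inl ℚ V V := by
      refine LinearMap.ext fun x => ?_
      simp [p]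
    rw [← hid, h]
    exact (LinearMap.rank_comp_le_left _ _).trans (LinearMap.rank_comp_le_right _ _)
  have hrq : ℵ_ Ordinal.omega0 ≤ LinearMap.rank (1 - p) := by
    have h : (LinearMap.id : V →ₗ[ℚ] V) =
        (LinearMap.snd ℚ V V ∘ₗ (1 - p)) ∘ₗ LinearMap.inr ℚ V V := by
      refine LinearMap.ext fun x => ?_
      simp [p]
    rw [← hid, h]
    exact (LinearMap.rank_comp_le_left _ _).trans (LinearMap.rank_comp_le_right _ _)
  obtain ⟨C, h1, h2, h3⟩ := main p hp hrp hrq
  exact ⟨ringR p, inferInstance, C, closed_iff (regular p hp), h1, h2, h3⟩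

end Pool.Agent.Results.MP_9f28a9_al.NoGenericPoint
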